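import Pool.Agent.H29.HS.Iface

/-!
# MP_a2e4e3_an, module A: substitution of multilinear polynomials
-/

set_option autoImplicit false

namespace Pool.Agent.H77.HS
open MeasureTheory Finset Pool.Agent.H29.HS

section
variable {ι κ : Type} [Fintype ι] [DecidableEq ι] [Fintype κ] [DecidableEq κ]

/-- rows of a set of pairs -/
def rows (T : Finset (ι × κ)) : ι → Finset κ := fun i =>
  (Finset.univ : Finset κ).filter fun k => (i, k) ∈ T

/-- nonempty rows -/
def supp (K : ι → Finset κ) : Finset ι := Finset.univ.filter fun i => K i ≠ ∅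

theorem mem_rows (T : Finset (ι × κ)) (i : ι) (k : κ) : k ∈ rows T i ↔ (i, k) ∈ T := by
  simp [rows]

def rowsEquiv : Finset (ι × κ) ≃ (ι → Finset κ) where
  toFun := rows
  invFun K := Finset.univ.filter fun q => q.2 ∈ K q.1
  left_inv T := by
    ext ⟨i, k⟩; simp [rows]
  right_inv K := by
    funext i; ext k; simp [rows]

theorem image_fst (T : Finset (ι × κ)) : T.image Prod.fst = supp (rows T) := by
  ext i
  simp only [Finset.mem_image, supp, Finset.mem_filter, Finset.mem_univ, true_and, Prod.exists,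
    exists_and_right, exists_eq_right, ne_eq]
  rw [← ne_eq, ← Finset.nonempty_iff_ne_empty]
  constructor
  · rintro ⟨k, hk⟩; exact ⟨k, (mem_rows T i k).2 hk⟩
  · rintro ⟨k, hk⟩; exact ⟨k, (mem_rows T i k).1 hk⟩

theorem mem_iff (T : Finset (ι × κ)) (q : ι × κ) :
    q ∈ T ↔ q.1 ∈ supp (rows T) ∧ q.2 ∈ rows T q.1 := by
  rw [mem_rows]
  constructor
  · intro h
    refine ⟨?_, h⟩
    rw [← image_fst]
    exact Finset.mem_image_of_mem _ h
  · exact fun h => h.2

theorem prod_rows (T : Finset (ι × κ)) (x : ι × κ → ℝ) :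
    ∏ q ∈ T, x q = ∏ i ∈ supp (rows T), ∏ k ∈ rows T i, x (i, k) :=
  Finset.prod_finset_product T _ _ (mem_iff T)

theorem card_rows (T : Finset (ι × κ)) : T.card = ∑ i ∈ supp (rows T), (rows T i).card := by
  rw [Finset.card_eq_sum_ones, Finset.sum_finset_product T _ _ (mem_iff T)]
  simp

/-- the local factor -/
def hh (g : Finset κ → ℝ) (X : ι → Finset κ → ℝ) (S : Finset ι) (j : ι) (K : Finset κ) : ℝ :=
  if j ∈ S then g K * X j K else if K = ∅ then 1 else 0

theorem prod_hh (g : Finset κ → ℝ) (hg : g ∅ = 0) (X : ι → Finset κ → ℝ) (S : Finset ι)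
    (K : ι → Finset κ) :
    ∏ j, hh g X S j (K j) =
      if S = supp K then ∏ i ∈ supp K, (g (K i) * X i (K i)) else 0 := by
  split_ifs with h
  · subst h
    have : ∀ j, hh g X (supp K) j (K j) = if j ∈ supp K then g (K j) * X j (K j) else 1 := by
      intro j
      unfold hh
      split_ifs with h1 h2
      · rfl
      · rfl
      · exact absurd (by simp [supp, h2]) h1
    simp only [this]
    rw [Finset.prod_ite_mem, Finset.univ_inter]
  · obtain ⟨i, hi⟩ : ∃ i, ¬ (i ∈ S ↔ i ∈ supp K) := by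
      by_contra hc
      push Not at hc
      exact h (Finset.ext hc)
    apply Finset.prod_eq_zero (Finset.mem_univ i)
    unfold hh
    by_cases hS : i ∈ S
    · have : K i = ∅ := by
        by_contra hK
        exact hi ⟨fun _ => by simp [supp, hK], fun _ => hS⟩
      simp [hS, this, hg]
    · have : K i ≠ ∅ := by
        intro hK
        exact hi ⟨fun h => absurd h hS, fun h => by simp [supp, hK] at h⟩
      simp [hS, this]

theorem prod_sum_hh (g : Finset κ → ℝ) (X : ι → Finset κ → ℝ) (S : Finset ι) (j : ι) :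
    ∑ K : Finset κ, hh g X S j K = if j ∈ S then ∑ K, g K * X j K else 1 := by
  unfold hh
  split_ifs with h
  · rfl
  · simp

theorem expand1 (g : Finset κ → ℝ) (X : ι → Finset κ → ℝ) (S : Finset ι) :
    ∏ i ∈ S, ∑ K, g K * X i K = ∑ K : ι → Finset κ, ∏ j, hh g X S j (K j) := by
  have h1 : ∑ K : ι → Finset κ, ∏ j, hh g X S j (K j) = ∏ j, ∑ K, hh g X S j K := by
    rw [Finset.prod_univ_sum, Fintype.piFinset_univ]
  rw [h1]
  simp only [prod_sum_hh]
  rw [Finset.prod_ite_mem, Finset.univ_inter]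

theorem expand2 (g : Finset κ → ℝ) (X : ι → Finset κ → ℝ) (S : Finset ι) (i : ι) (hi : i ∈ S) :
    (∑ K, (K.card : ℝ) * (g K * X i K)) * ∏ j ∈ S.erase i, ∑ K, g K * X j K =
      ∑ K : ι → Finset κ, ((K i).card : ℝ) * ∏ j, hh g X S j (K j) := by
  set h' : ι → Finset κ → ℝ := fun j K => (if j = i then (K.card : ℝ) else 1) * hh g X S j K
    with hh'
  have h1 : ∑ K : ι → Finset κ, ∏ j, h' j (K j) = ∏ j, ∑ K, h' j K := by
    rw [Finset.prod_univ_sum, Fintype.piFinset_univ]
  have h2 : ∀ K : ι → Finset κ, ∏ j, h' j (K j) = ((K i).card : ℝ) * ∏ j, hh g X S j (K j) := by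
    intro K
    rw [hh']
    simp only [Finset.prod_mul_distrib]
    rw [Finset.prod_ite_eq']
    simp
  simp only [← h2]
  rw [h1, ← Finset.mul_prod_erase Finset.univ _ (Finset.mem_univ i)]
  congr 1
  · simp [hh', hh, hi]
  · have h3 : ∀ j ∈ (Finset.univ : Finset ι).erase i, ∑ K, h' j K =
        if j ∈ S.erase i then ∑ K, g K * X j K else 1 := by
      intro j hj
      have hji : j ≠ i := Finset.ne_of_mem_erase hj
      simp only [hh', hji, if_false, one_mul, prod_sum_hh, Finset.mem_erase, ne_eq,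
        not_false_eq_true, true_and]
    rw [Finset.prod_congr rfl h3, Finset.prod_ite_mem]
    congr 1
    ext j; simp

theorem comp_eq (a : Finset ι → ℝ) (g : Finset κ → ℝ) (T : Finset (ι × κ)) :
    comp a g T = a (supp (rows T)) * ∏ i ∈ supp (rows T), g (rows T i) := by
  unfold comp
  rw [image_fst]
  rfl

theorem mev_comp (a : Finset ι → ℝ) (g : Finset κ → ℝ) (hg : g ∅ = 0) (x : ι × κ → ℝ)
    (w : (ι → Finset κ) → ℝ) :
    ∑ T : Finset (ι × κ), w (rows T) * (comp a g T * ∏ q ∈ T, x q) =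
      ∑ S : Finset ι, a S * ∑ K : ι → Finset κ, w K *
        ∏ j, hh g (fun i K => ∏ k ∈ K, x (i, k)) S j (K j) := by
  have h1 : ∀ T : Finset (ι × κ), w (rows T) * (comp a g T * ∏ q ∈ T, x q) =
      (fun K : ι → Finset κ => w K * (a (supp K) * ∏ i ∈ supp K, (g (K i) * ∏ k ∈ K i, x (i, k))))
        (rowsEquiv T) := by
    intro T
    simp only [comp_eq, prod_rows, Finset.prod_mul_distrib]
    change _ = w (rows T) * (a (supp (rows T)) * ((∏ i ∈ supp (rows T), g (rows T i)) *
      ∏ i ∈ supp (rows T), ∏ k ∈ rows T i, x (i, k)))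
    ring
  simp only [h1]
  rw [Equiv.sum_comp rowsEquiv (fun K : ι → Finset κ => w K * (a (supp K) *
    ∏ i ∈ supp K, (g (K i) * ∏ k ∈ K i, x (i, k))))]
  simp only [Finset.mul_sum]
  rw [Finset.sum_comm]
  apply Finset.sum_congr rfl
  intro K _
  simp only [prod_hh g hg]
  simp only [mul_ite, mul_zero]
  rw [Finset.sum_ite_eq' Finset.univ (supp K)]
  simp only [Finset.mem_univ, if_true]
  ring

end

theorem modA1 : A1Stmt := by
  intro ι κ _ _ _ _ a g hg x
  have h := mev_comp a g hg x (fun _ => 1)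
  simp only [one_mul] at h
  unfold mev
  rw [h]
  apply Finset.sum_congr rfl
  intro S _
  rw [← expand1]

theorem modA2 : A2Stmt := by
  intro ι κ _ _ _ _ a g d M ha hg T hT
  rw [comp_eq]
  by_contra hne
  have h1 : d ≤ (supp (rows T)).card := by
    by_contra hc
    push Not at hc
    exact hne (by rw [ha _ hc, zero_mul])
  have h2 : ∀ i ∈ supp (rows T), M ≤ (rows T i).card := by
    intro i hi
    by_contra hc
    push Not at hc
    exact hne (by rw [Finset.prod_eq_zero hi (hg _ hc), mul_zero])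
  have h3 : (supp (rows T)).card * M ≤ T.card := by
    rw [card_rows T]
    calc (supp (rows T)).card * M = ∑ i ∈ supp (rows T), M := by simp
      _ ≤ _ := Finset.sum_le_sum h2
  have := Nat.mul_le_mul_right M h1
  omega

theorem modA3 : A3Stmt := by
  intro ι κ _ _ _ _ a g hg x
  have h := mev_comp a g hg x (fun K => ∑ i ∈ supp K, ((K i).card : ℝ))
  have h1 : mev (num (comp a g)) x = ∑ T : Finset (ι × κ),
      (∑ i ∈ supp (rows T), ((rows T i).card : ℝ)) * (comp a g T * ∏ q ∈ T, x q) := by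
    unfold mev num
    apply Finset.sum_congr rfl
    intro T _
    rw [card_rows T]
    push_cast
    ring
  rw [h1, h]
  apply Finset.sum_congr rfl
  intro S _
  congr 1
  have h2 : ∀ i ∈ S, mev (num g) (fun k => x (i, k)) * ∏ j ∈ S.erase i, mev g (fun k => x (j, k)) =
      ∑ K : ι → Finset κ, ((K i).card : ℝ) *
        ∏ j, hh g (fun i K => ∏ k ∈ K, x (i, k)) S j (K j) := by
    intro i hi
    rw [← expand2 g _ S i hi]
    unfold mev num
    simp only [mul_assoc]
  rw [Finset.sum_congr rfl h2, Finset.sum_comm]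
  apply Finset.sum_congr rfl
  intro K _
  rw [← Finset.sum_mul, prod_hh g hg]
  split_ifs with hS
  · rw [hS]
  · simp

end Pool.Agent.H77.HS
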