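import Pool.Agent.H29.HS.Iface

/-!
# MP_a2e4e3_an, module I: from the frozen (positive) statement on the cube to the Rademacher alphabet
-/

set_option autoImplicit false

namespace Pool.Agent.H77.HS
open MeasureTheory Finset Pool.Agent.H29.HS

theorem radM_prob : IsProbabilityMeasure radM := by
  unfold radM; infer_instance

theorem radM_singleton (b : Bool) : radM {b} = 2⁻¹ := by
  unfold radM
  rw [PMF.toMeasure_apply_singleton _ _ (MeasurableSet.singleton b)]
  simp

theorem radM_real (b : Bool) : radM.real {b} = 1 / 2 := by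
  rw [Measure.real, radM_singleton]; simp

theorem rad_isAlph : IsAlph radM radU := by
  have := radM_prob
  refine ⟨radM_prob, measurable_of_finite _, ?_, ?_, ?_⟩
  · intro x; cases x <;> simp [radU]
  · rw [integral_fintype (Integrable.of_finite)]
    simp [radM_real, radU]
  · rw [integral_fintype (Integrable.of_finite)]
    simp [radM_real, radU]

theorem pi_real {ι : Type} [Fintype ι] (x : ι → Bool) :
    (Measure.pi fun _ : ι => radM).real {x} = (1 / 2) ^ Fintype.card ι := by
  have := radM_prob
  rw [Measure.real, Measure.pi_singleton]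
  simp [radM_singleton]

theorem nrm_pi {ι : Type} [Fintype ι] [DecidableEq ι] (X : (ι → Bool) → ℝ) :
    nrm (Measure.pi fun _ : ι => radM) X =
      ((∑ x : ι → Bool, |X x| ^ (10 / 9 : ℝ)) / (2 : ℝ) ^ Fintype.card ι) ^ (1 / (10 / 9 : ℝ)) := by
  have := radM_prob
  unfold nrm
  rw [integral_fintype (Integrable.of_finite)]
  simp only [pi_real, smul_eq_mul]
  rw [← Finset.mul_sum, one_div_pow, one_div_mul_eq_div]
  norm_num

theorem nrm_nonneg {Ω : Type} [MeasurableSpace Ω] (μ : Measure Ω) (X : Ω → ℝ) : 0 ≤ nrm μ X := by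
  unfold nrm
  exact Real.rpow_nonneg (integral_nonneg fun x => Real.rpow_nonneg (abs_nonneg _) _) _

/-- orthogonality of the Walsh functions -/
theorem walsh_orth {n : ℕ} (S T : Finset (Fin n)) (h : S ≠ T) :
    ∑ x : Fin n → Bool, (∏ i ∈ T, radU (x i)) * ∏ i ∈ S, radU (x i) = 0 := by
  obtain ⟨i, hi⟩ : ∃ i, ¬ (i ∈ S ↔ i ∈ T) := by
    by_contra hc
    push Not at hc
    exact h (Finset.ext hc)
  set g : Fin n → Bool → ℝ := fun i b =>
    (if i ∈ T then radU b else 1) * (if i ∈ S then radU b else 1) with hg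
  have h1 : ∀ x : Fin n → Bool, (∏ i ∈ T, radU (x i)) * ∏ i ∈ S, radU (x i) =
      ∏ i, g i (x i) := by
    intro x
    rw [hg]
    simp only [Finset.prod_mul_distrib, Finset.prod_ite_mem, Finset.univ_inter]
  simp only [h1]
  have h2 : ∑ x : Fin n → Bool, ∏ i, g i (x i) = ∏ i, ∑ b : Bool, g i b := by
    rw [Finset.prod_univ_sum, Fintype.piFinset_univ]
  rw [h2]
  apply Finset.prod_eq_zero (Finset.mem_univ i)
  simp only [Fintype.sum_bool, hg]
  by_cases hT : i ∈ T
  · have hS : i ∉ S := fun hS => hi ⟨fun _ => hT, fun _ => hS⟩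
    simp [hT, hS, radU]
  · have hS : i ∈ S := by
      by_contra hS
      exact hi ⟨fun h => absurd h hS, fun h => absurd h hT⟩
    simp [hT, hS, radU]

theorem walsh_coeff {n d : ℕ} (b : Finset (Fin n) → ℝ)
    (hb : ∀ S : Finset (Fin n), S.card < d → b S = 0) (S : Finset (Fin n)) (hS : S.card < d) :
    ∑ x : Fin n → Bool, mev b (fun i => radU (x i)) * ∏ i ∈ S, radU (x i) = 0 := by
  unfold mev
  simp only [Finset.sum_mul]
  rw [Finset.sum_comm]
  apply Finset.sum_eq_zero
  intro T _
  by_cases h : S = T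
  · subst h; simp [hb S hS]
  · have := walsh_orth S T h
    simp only [mul_assoc]
    rw [← Finset.mul_sum, this, mul_zero]

theorem flip_prod {n : ℕ} (S : Finset (Fin n)) (x : Fin n → Bool) (i : Fin n) :
    ∏ j ∈ S, radU (Function.update x i (!x i) j) =
      if i ∈ S then - ∏ j ∈ S, radU (x j) else ∏ j ∈ S, radU (x j) := by
  split_ifs with hi
  · rw [← Finset.mul_prod_erase S _ hi, ← Finset.mul_prod_erase S (fun j => radU (x j)) hi]
    have h1 : ∏ j ∈ S.erase i, radU (Function.update x i (!x i) j) =
        ∏ j ∈ S.erase i, radU (x j) := by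
      apply Finset.prod_congr rfl
      intro j hj
      rw [Function.update_of_ne (Finset.ne_of_mem_erase hj)]
    rw [h1, Function.update_self]
    cases x i <;> simp [radU]
  · apply Finset.prod_congr rfl
    intro j hj
    rw [Function.update_of_ne]
    rintro rfl
    exact hi hj

theorem laplace {n : ℕ} (b : Finset (Fin n) → ℝ) (x : Fin n → Bool) :
    ∑ i : Fin n, (mev b (fun j => radU (x j)) -
      mev b (fun j => radU (Function.update x i (!x i) j))) / 2 =
      mev (num b) (fun j => radU (x j)) := by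
  unfold mev num
  have h1 : ∀ i : Fin n, (∑ S, b S * ∏ j ∈ S, radU (x j) -
      ∑ S, b S * ∏ j ∈ S, radU (Function.update x i (!x i) j)) / 2 =
      ∑ S, (if i ∈ S then b S * ∏ j ∈ S, radU (x j) else 0) := by
    intro i
    rw [← Finset.sum_sub_distrib, Finset.sum_div]
    apply Finset.sum_congr rfl
    intro S _
    rw [flip_prod]
    split_ifs <;> ring
  simp only [h1]
  rw [Finset.sum_comm]
  apply Finset.sum_congr rfl
  intro S _
  rw [Finset.sum_ite_mem, Finset.univ_inter, Finset.sum_const, nsmul_eq_mul, mul_assoc]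

/-- transport of coefficients along an equivalence -/
theorem mev_transport {ι : Type} [Fintype ι] {n : ℕ} (e : ι ≃ Fin n) (a : Finset ι → ℝ)
    (y : Fin n → ℝ) :
    mev a (fun i => y (e i)) = mev (fun S => a (S.map e.symm.toEmbedding)) y := by
  unfold mev
  apply Fintype.sum_equiv e.finsetCongr
  intro S
  have h : (S.map e.toEmbedding).map e.symm.toEmbedding = S := by
    rw [Finset.map_map]
    convert Finset.map_refl
    ext i; simp
  simp [Equiv.finsetCongr_apply, h, Finset.prod_map]

theorem num_transport {ι : Type} {n : ℕ} (e : ι ≃ Fin n) (a : Finset ι → ℝ) :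
    (fun S : Finset (Fin n) => num a (S.map e.symm.toEmbedding)) =
      num (fun S => a (S.map e.symm.toEmbedding)) := by
  funext S; simp [num]

theorem sum_transport {ι : Type} [Fintype ι] [DecidableEq ι] {n : ℕ} (e : ι ≃ Fin n)
    (F : (Fin n → Bool) → ℝ) :
    ∑ ω : ι → Bool, F (fun j => ω (e.symm j)) = ∑ x : Fin n → Bool, F x := by
  apply Fintype.sum_equiv (e.arrowCongr (Equiv.refl Bool))
  intro ω
  rfl

theorem modI : IStmt := by
  refine ⟨rad_isAlph, ?_⟩
  rintro ⟨c, hc, H⟩
  refine ⟨c, hc, ?_⟩
  intro ι _ _ d a ha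
  rcases Nat.eq_zero_or_pos d with rfl | hd
  · simp [nrm_nonneg]
  set n := Fintype.card ι with hn
  set e : ι ≃ Fin n := Fintype.equivFin ι with he
  set b : Finset (Fin n) → ℝ := fun S => a (S.map e.symm.toEmbedding) with hb
  have hb0 : ∀ S : Finset (Fin n), S.card < d → b S = 0 := by
    intro S hS
    exact ha _ (by simpa using hS)
  have key := H d hd n (fun x => mev b (fun i => radU (x i))) (fun S hS => walsh_coeff b hb0 S hS)
  simp only [laplace] at key
  rw [nrm_pi, nrm_pi]
  have e1 : ∀ ω : ι → Bool, mev a (fun i => radU (ω i)) =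
      mev b (fun j => radU (ω (e.symm j))) := by
    intro ω
    rw [hb, ← mev_transport e a (fun j => radU (ω (e.symm j)))]
    simp
  have e2 : ∀ ω : ι → Bool, mev (num a) (fun i => radU (ω i)) =
      mev (num b) (fun j => radU (ω (e.symm j))) := by
    intro ω
    rw [hb, ← num_transport, ← mev_transport e (num a) (fun j => radU (ω (e.symm j)))]
    simp
  simp only [e1, e2]
  rw [sum_transport e (fun x => |mev b (fun j => radU (x j))| ^ (10 / 9 : ℝ)),
    sum_transport e (fun x => |mev (num b) (fun j => radU (x j))| ^ (10 / 9 : ℝ))]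
  calc _ = (d : ℝ) * c * _ := by rw [mul_comm c]
    _ ≤ _ := key

end Pool.Agent.H77.HS
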